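import Pool.Agent.R533.SM.Red

/-!
# Recognising expressible submodular polynomials of degree 4 is coNP-hard

Definitions: `Pool/Agent/R533/SM/Defs.lean` (`fn`, `IsDeg4`, `Submodular`, `Expressible`),
`Pool/Agent/NPC/Defs.lean` and `Pool/Agent/NPC/Classes.lean` (`PolyTime`, `bits`, `InNP`,
`InCoNP`, `InP`; Turing machines of Mathlib).

Idea. On four variables there is a submodular function which becomes expressible exactly when its
coefficient of `x₁ x₂` is lowered by one unit: the function `g + x₁ x₂`, where `g` is a sum of
three threshold functions. Let `Q` be a quadratic function of further variables `z` whose maximum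
is the clique number of a graph. With `ζ = ∑ 2 ^ p z_p`, for every function `P ≥ 0` of the numbers
`ζ < 2 ^ N` and all large `M` the function `- P(ζ) x₁ x₂ - 2 M ζ ^ 2 - M ζ (x₁ + x₂)` is
expressible, as a sum of threshold functions (exponentially many, but this does not matter). With
`P = k - 1 - Q` this has degree 4, and its sum with a multiple of `g` is expressible if there is no
clique with `k` vertices. Otherwise one inequality with five points, which holds for all
expressible functions, is violated.
-/

set_option autoImplicit false

namespace Pool.Agent.Results.MP_cb9cb0_lc.CoNPHard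

open Pool.Agent.NPC Pool.Agent.R533.SM

/-- Deciding whether a submodular polynomial of degree `4` is expressible by binary submodular
functions is `coNP`-hard: every language in `coNP` is reduced in polynomial time to this problem,
and all instances produced are submodular polynomials of degree `4`. Hence an algorithm running in
polynomial time, correct on submodular polynomials of degree `4`, would put `NP` into `P`. -/
theorem result :
    (∀ L : Set (List Bool), InCoNP L → ∃ f : List Bool → ℕ × List (List ℕ × ℚ),
      PolyTime (fun w => bits (f w)) ∧
      ∀ w, IsDeg4 (f w) ∧ Submodular (fn (f w).1 (f w).2) ∧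
        (w ∈ L ↔ Expressible (fn (f w).1 (f w).2))) ∧
    ((∃ V : List Bool → List Bool, PolyTime V ∧
        ∀ I : ℕ × List (List ℕ × ℚ), IsDeg4 I → Submodular (fn I.1 I.2) →
          (V (bits I) = [true] ↔ Expressible (fn I.1 I.2))) →
      ∀ L : Set (List Bool), InNP L → InP L) := by
  constructor
  · intro L hL
    obtain ⟨f, hf, hpr, hfL⟩ := Pool.Agent.NPC.R533.SM.hardPr_expressible _ hL
    refine ⟨f, PC.toPolyTime hf, fun w => ⟨(hpr w).1, (hpr w).2, ?_⟩⟩
    have h := hfL w
    rw [Set.mem_compl_iff] at h
    exact not_iff_not.1 h
  · rintro ⟨V, hV, hVI⟩ L hL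
    obtain ⟨f, hf, hpr, hfL⟩ := Pool.Agent.NPC.R533.SM.hardPr_expressible _ hL
    have h1 : PC (fun x : List Bool => x) (fun x : List Bool => x) V :=
      H642R2.TMSim.polyTime_toPC hV
    have h2 : PC (fun x : List Bool => x) (fun x : List Bool => x) (fun x => V (bits (f x))) :=
      PC.comp (g := V) (f := fun x => bits (f x)) h1 hf
    have hg : Poly (fun y : List Bool => !decide (y = [true])) := by fun_prop
    refine ⟨_, polyTime_test (PC.toPolyTime h2) hg, fun x => ?_⟩
    have h3 := hVI (f x) (hpr x).1 (hpr x).2
    rw [hfL x]
    show ¬ Expressible _ ↔ _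
    rw [← h3]
    by_cases h4 : V (bits (f x)) = [true] <;> simp [h4]

end Pool.Agent.Results.MP_cb9cb0_lc.CoNPHard
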